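import Pool.Agent.K4H23.NZ.Spec

set_option autoImplicit false

open Finset Pointwise

namespace Pool.Agent.K4H23.NZ

lemma slab_eq_cube (e M : ℕ) : slab e M M = cube (e + 1) M := by
  unfold slab cube
  congr 1
  funext i
  refine Fin.cases ?_ (fun j => ?_) i
  · rfl
  · simp

lemma cube_nonempty91 (e M : ℕ) : (cube e M).Nonempty := by
  refine ⟨0, ?_⟩
  unfold cube
  rw [Finset.mem_Icc]
  exact ⟨le_rfl, fun i => by simp⟩

/-- B3 with the pieces s2, s3a, s3b, s3c, b1, b2 as hypotheses -/
theorem b3_of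
    (s2 : ∀ {e : ℕ} (M m : ℕ) (A : Finset (Fin (e + 1) → ℤ)),
      ∑ t ∈ A.image (fun x => x 0), (slice A t + cube e M).card +
        m * (A.image Fin.tail + cube e M).card ≤ (A + slab e M m).card)
    (s3a : ∀ {e : ℕ} (A : Finset (Fin (e + 1) → ℤ)),
      ∑ t ∈ A.image (fun x => x 0), (slice A t).card = A.card)
    (s3b : ∀ {e : ℕ} (A : Finset (Fin (e + 1) → ℤ)) (t : ℤ), slice A t ⊆ A.image Fin.tail)
    (s3c : ∀ {e : ℕ} {A : Finset (Fin (e + 1) → ℤ)} {t : ℤ}, t ∈ A.image (fun x => x 0) →
      (slice A t).Nonempty)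
    (b1 : ∀ {e : ℕ}, 1 ≤ e → ∀ {M u v : ℝ}, 0 ≤ M → 0 < v → v ≤ u → v * g e M u ≤ u * g e M v)
    (b2 : ∀ {e : ℕ}, 1 ≤ e → ∀ {M u y : ℝ}, 0 < M → 0 < u → 0 < y →
      g (e + 1) M (y * u) ≤ (y + M) * g e M u)
    {e : ℕ} (he : 1 ≤ e) {M : ℕ} (hM : 1 ≤ M) (D : Finset (Fin e → ℤ)) (hD : D.Nonempty) :
    g e M D.card ≤ ((D + cube e M).card : ℝ) := by
  induction e with
  | zero => omega
  | succ e ih =>
    have h2 := s2 M M D
    rw [slab_eq_cube] at h2
    have hut : (D.image Fin.tail).Nonempty := hD.image _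
    rcases Nat.eq_zero_or_pos e with h0 | hpos
    · subst h0
      have h3 : D.card ≤ ∑ t ∈ D.image (fun x => x 0), (slice D t + cube 0 M).card := by
        rw [← s3a D]
        exact Finset.sum_le_sum fun t _ => Finset.card_le_card_add_right (cube_nonempty91 0 M)
      have h4 : 1 ≤ (D.image Fin.tail + cube 0 M).card :=
        Finset.card_pos.2 (hut.add (cube_nonempty91 0 M))
      have h5 : D.card + M ≤ (D + cube (0 + 1) M).card := by
        have := Nat.mul_le_mul_left M h4
        omega
      have h6 : g (0 + 1) M D.card = (D.card : ℝ) + M := by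
        unfold g
        simp
      rw [h6]
      exact_mod_cast h5
    · have h2' : (∑ t ∈ D.image (fun x => x 0), ((slice D t + cube e M).card : ℝ)) +
          M * ((D.image Fin.tail + cube e M).card : ℝ) ≤ ((D + cube (e + 1) M).card : ℝ) := by
        exact_mod_cast h2
      have hu : (0 : ℝ) < ((D.image Fin.tail).card : ℝ) := by
        exact_mod_cast Finset.card_pos.2 hut
      have hn : (0 : ℝ) < (D.card : ℝ) := by exact_mod_cast Finset.card_pos.2 hD
      have hMr : (0 : ℝ) < (M : ℝ) := by exact_mod_cast hM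
      have h3 : ∀ t ∈ D.image (fun x => x 0),
          ((slice D t).card : ℝ) / ((D.image Fin.tail).card : ℝ) *
            g e M ((D.image Fin.tail).card : ℝ) ≤ ((slice D t + cube e M).card : ℝ) := by
        intro t ht
        have h4 := ih hpos (slice D t) (s3c ht)
        have h5 : (0 : ℝ) < ((slice D t).card : ℝ) := by
          exact_mod_cast Finset.card_pos.2 (s3c ht)
        have h6 : ((slice D t).card : ℝ) ≤ ((D.image Fin.tail).card : ℝ) := by
          exact_mod_cast Finset.card_le_card (s3b D t)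
        have h7 := b1 hpos hMr.le h5 h6
        rw [div_mul_eq_mul_div, div_le_iff₀ hu]
        calc _ ≤ ((D.image Fin.tail).card : ℝ) * g e M ((slice D t).card : ℝ) := h7
          _ ≤ ((D.image Fin.tail).card : ℝ) * ((slice D t + cube e M).card : ℝ) :=
            mul_le_mul_of_nonneg_left h4 hu.le
          _ = _ := mul_comm _ _
      have h8 := Finset.sum_le_sum h3
      rw [← Finset.sum_mul, ← Finset.sum_div] at h8
      have h9 : (∑ t ∈ D.image (fun x => x 0), ((slice D t).card : ℝ)) = (D.card : ℝ) := by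
        exact_mod_cast s3a D
      rw [h9] at h8
      have h10 := ih hpos (D.image Fin.tail) hut
      have h11 := b2 hpos hMr hu (div_pos hn hu)
      rw [div_mul_cancel₀ _ hu.ne'] at h11
      have h12 := mul_le_mul_of_nonneg_left h10 hMr.le
      calc g (e + 1) M D.card
          ≤ ((D.card : ℝ) / ((D.image Fin.tail).card : ℝ) + M) *
              g e M ((D.image Fin.tail).card : ℝ) := h11
        _ ≤ _ := by rw [add_mul]; linarith

end Pool.Agent.K4H23.NZ
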